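import Pool.Agent.Helper16.HR.Base
import Pool.Agent.Helper85.RL.Stmts

/-! Row COV of the sheet RL: a maximal cover of a class by product sets on which `b` is sparse. -/

set_option autoImplicit false

namespace Pool.Helper59.RL

open Finset Pool.Helper16.HR Pool.Helper85.RL

theorem one_le_one' {α : Type} (P : α → Prop) (x : α) : one P x ≤ 1 := by
  classical
  unfold one
  split_ifs <;> norm_num

theorem one_or {α : Type} {P Q : α → Prop} (h : ∀ x, P x → ¬ Q x) (x : α) :
    one (fun y => P y ∨ Q y) x = one P x + one Q x := by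
  classical
  unfold one
  by_cases hP : P x
  · have hQ := h x hP
    simp [hP, hQ]
  · simp [hP]

theorem COV : ST_COV := by
  classical
  intro I V _ _ _ _ S κ b ρ γ hγ
  -- the property
  let Cv : ℕ → (ℕ → Finset I → (I → V) → Prop) → (I → V) → Prop := fun n g y =>
    κ y ∧ ∃ i < n, ∀ U ∈ S, g i U y
  let P : ℕ → Prop := fun n => ∃ g : ℕ → Finset I → (I → V) → Prop,
    (∀ i, ∀ U ∈ S, Dep U (g i U)) ∧ (n : ℝ) * γ ≤ av (one (Cv n g)) ∧
    av (fun x => b x * one (Cv n g) x) ≤ ρ * av (one (Cv n g))
  have hP0 : P 0 := by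
    refine ⟨fun _ _ _ => True, fun _ _ _ _ _ _ => rfl, ?_, ?_⟩
    · simp only [Nat.cast_zero, zero_mul]
      exact av_nonneg fun x => by unfold one; split_ifs <;> norm_num
    · have h1 : ∀ x : I → V, one (Cv 0 fun _ _ _ => True) x = 0 := by
        intro x
        unfold one
        rw [if_neg]
        rintro ⟨_, i, hi, _⟩
        omega
      have h2 : av (fun x => b x * one (Cv 0 fun _ _ _ => True) x) =
          av (fun _ : I → V => (0 : ℝ)) := av_congr fun x => by rw [h1 x, mul_zero]
      have h3 : av (one (Cv 0 fun _ _ _ => True)) = av (fun _ : I → V => (0 : ℝ)) :=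
        av_congr fun x => h1 x
      rw [h2, h3, av_const, mul_zero]
  have hbd : ∀ n, P n → (n : ℝ) * γ ≤ 1 := by
    rintro n ⟨g, -, h1, -⟩
    exact h1.trans (av_le_one fun x => one_le_one' _ x)
  obtain ⟨n, hn, hn1⟩ : ∃ n, P n ∧ ¬ P (n + 1) := by
    by_contra hcon
    push Not at hcon
    have hall : ∀ n, P n := fun n => Nat.rec hP0 (fun k hk => hcon k hk) n
    obtain ⟨N, hN⟩ := exists_nat_gt (1 / γ)
    have h1 := hbd N (hall N)
    rw [div_lt_iff₀ hγ] at hN
    linarith
  obtain ⟨g, hg1, hg2, hg3⟩ := hn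
  refine ⟨n, g, hg1, hbd n ⟨g, hg1, hg2, hg3⟩, hg3, fun s hs hγs => ?_⟩
  by_contra hcon
  rw [not_le] at hcon
  apply hn1
  let g' : ℕ → Finset I → (I → V) → Prop := fun i => if i = n then s else g i
  let Q : (I → V) → Prop := fun y =>
    κ y ∧ (¬ ∃ i < n, ∀ U ∈ S, g i U y) ∧ ∀ U ∈ S, s U y
  have hC : Cv (n + 1) g' = fun y => Cv n g y ∨ Q y := by
    funext y
    apply propext
    constructor
    · rintro ⟨hk, i, hi, hU⟩
      by_cases h1 : ∃ i < n, ∀ U ∈ S, g i U y
      · exact Or.inl ⟨hk, h1⟩
      · refine Or.inr ⟨hk, h1, ?_⟩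
        by_cases hin : i = n
        · intro U hUS
          have := hU U hUS
          simpa [g', hin] using this
        · exfalso
          refine h1 ⟨i, by omega, fun U hUS => ?_⟩
          have := hU U hUS
          simpa [g', hin] using this
    · rintro (⟨hk, i, hi, hU⟩ | ⟨hk, _, hU⟩)
      · refine ⟨hk, i, by omega, fun U hUS => ?_⟩
        have hin : i ≠ n := by omega
        simpa [g', hin] using hU U hUS
      · refine ⟨hk, n, by omega, fun U hUS => ?_⟩
        simpa [g'] using hU U hUS
  have hdis : ∀ y, Cv n g y → ¬ Q y := fun y h1 h2 => h2.2.1 h1.2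
  have e1 : av (one (Cv (n + 1) g')) = av (one (Cv n g)) + av (one Q) := by
    rw [← av_add]
    refine av_congr fun x => ?_
    rw [hC]
    exact one_or hdis x
  have e2 : av (fun x => b x * one (Cv (n + 1) g') x) =
      av (fun x => b x * one (Cv n g) x) + av (fun x => b x * one Q x) := by
    rw [← av_add]
    refine av_congr fun x => ?_
    rw [hC, ← mul_add]
    congr 1
    exact one_or hdis x
  refine ⟨g', ?_, ?_, ?_⟩
  · intro i U hU
    by_cases hin : i = n
    · simp only [g', hin, if_true]
      exact hs U hU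
    · simp only [g', hin, if_false]
      exact hg1 i U hU
  · rw [e1]
    push_cast
    have h1 : γ ≤ av (one Q) := hγs
    linarith
  · rw [e1, e2]
    have h1 : av (fun x => b x * one Q x) < ρ * av (one Q) := hcon
    linarith

end Pool.Helper59.RL
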