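import Pool.Agent.Helper16.HR.Base
import Pool.Agent.Helper85.RL.Stmts

/-! Row ENTB of the sheet RL: bounds for the entropy. -/

set_option autoImplicit false

namespace Pool.Helper59.RL

open Finset Pool.Helper16.HR Pool.Helper85.RL

theorem ENTB : ST_ENTB := by
  intro I V _ _ _ _ L c e b hb
  have h0 : ∀ x, 0 ≤ ce L c e b x := fun x => ce_nonneg (fun y => (hb y).1) x
  have h1 : ∀ x, ce L c e b x ≤ 1 := fun x => ce_le_one (fun y => (hb y).2) x
  constructor
  · unfold ent
    have h2 : av (fun x => ce L c e b x * Real.log (ce L c e b x)) ≤ av (fun _ : I → V => (0 : ℝ)) := by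
      refine av_mono fun x => ?_
      exact mul_nonpos_of_nonneg_of_nonpos (h0 x) (Real.log_nonpos (h0 x) (h1 x))
    rwa [av_const] at h2
  · intro hm
    set m : ℝ := av b with hmd
    have h2 : av (fun x => ce L c e b x * Real.log m + (ce L c e b x - m)) ≤ ent L c e b := by
      unfold ent
      refine av_mono fun x => ?_
      rcases (h0 x).eq_or_lt with h | h
      · rw [← h]
        simp only [zero_mul, zero_add, zero_sub]
        linarith
      · have h3 : 1 - (ce L c e b x / m)⁻¹ ≤ Real.log (ce L c e b x / m) :=
          Real.one_sub_inv_le_log_of_pos (div_pos h hm)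
        rw [Real.log_div h.ne' hm.ne', inv_div] at h3
        have h4 := mul_le_mul_of_nonneg_left h3 h.le
        have h5 : ce L c e b x * (1 - m / ce L c e b x) = ce L c e b x - m := by
          field_simp
        rw [h5] at h4
        linarith
    have h6 : av (fun x => ce L c e b x * Real.log m + (ce L c e b x - m)) = m * Real.log m := by
      rw [av_add, av_mul_right, av_sub, av_const]
      have h7 : av (fun x => ce L c e b x) = m := av_ce b
      rw [h7]
      ring
    rw [h6] at h2
    exact h2

end Pool.Helper59.RL
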